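import Mathlib
import Pool.Agent.Helper92.GB.Defs

/-!
# MP_b6b996_nt: from dyadic blocks to all prime sums
(Adapted from Helper92/GB/GLU.lean.)
-/

set_option autoImplicit false

namespace Pool.Agent.Helper25.JB

open Finset
open Pool.Agent.Helper92.GB (npi PS)

theorem PSD (f : ℕ → ℤ) (C : ℝ)
    (h3 : ∀ (k q : ℕ) (χ : DirichletCharacter ℂ q) (t : ℝ) (y : ℕ), 1 ≤ q →
      ‖∑ p ∈ ((Icc (2 ^ k + 1) (2 ^ (k + 1))).filter Nat.Prime).filter (· ≤ y),
          (f p : ℂ) * χ (p : ZMod q) * npi p t‖ ≤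
        C * Real.sqrt (2 ^ k) * (k + 1) * Real.sqrt (Real.log (q * (2 + |t|)))) :
    PS f := by
  intro ε hε
  refine ⟨8 * |C| * (1 + 2 / ε) ^ 2, ?_⟩
  intro q χ t y hq
  set a : ℕ → ℂ := fun p => (f p : ℂ) * χ (p : ZMod q) * npi p t with ha
  rcases Nat.eq_zero_or_pos y with rfl | hy
  · simp only [Finset.Icc_eq_empty_of_lt Nat.zero_lt_one, Finset.filter_empty,
      Finset.sum_empty, norm_zero, Nat.cast_zero]
    rw [Real.zero_rpow (by positivity)]
    simp
  have hyR : (1 : ℝ) ≤ (y : ℝ) := by exact_mod_cast hy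
  set X : ℝ := (q : ℝ) * (2 + |t|) with hX
  have hX2 : 2 ≤ X := by
    have h5 : (1 : ℝ) ≤ (q : ℝ) := by exact_mod_cast hq
    have h6 := abs_nonneg t
    rw [hX]
    nlinarith
  have hlogX : 1 / 4 ≤ Real.log X := by
    have h5 := Real.log_two_gt_d9
    have h6 : Real.log 2 ≤ Real.log X := Real.log_le_log (by norm_num) hX2
    linarith
  have hlogy : 0 ≤ Real.log y := Real.log_nonneg hyR
  set K : ℕ := Nat.log 2 y + 1 with hK
  have hKy : y < 2 ^ K := Nat.lt_pow_succ_log_self (by norm_num) y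
  set P := (Icc 1 y).filter Nat.Prime with hP
  have hoff : ∑ p ∈ P, a p =
      ∑ k ∈ range K, ∑ p ∈ ((Icc (2 ^ k + 1) (2 ^ (k + 1))).filter Nat.Prime).filter (· ≤ y),
        a p := by
    rw [← Finset.sum_fiberwise_of_maps_to (s := P) (t := range K)
      (g := fun p => Nat.log 2 (p - 1))]
    · refine Finset.sum_congr rfl fun k _ => ?_
      refine Finset.sum_congr ?_ fun _ _ => rfl
      ext p
      simp only [hP, mem_filter, mem_Icc]
      constructor
      · rintro ⟨⟨⟨_, h6⟩, h7⟩, h9⟩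
        have h10 := h7.two_le
        have h11 : p - 1 ≠ 0 := by omega
        have h12 := (Nat.log_eq_iff (b := 2) (m := k) (n := p - 1) (Or.inr ⟨by norm_num, h11⟩)).1 h9
        exact ⟨⟨⟨by omega, by omega⟩, h7⟩, h6⟩
      · rintro ⟨⟨⟨h5, h6⟩, h7⟩, h9⟩
        have h10 := h7.two_le
        have h11 : p - 1 ≠ 0 := by omega
        refine ⟨⟨⟨by omega, h9⟩, h7⟩, ?_⟩
        exact (Nat.log_eq_iff (b := 2) (m := k) (n := p - 1) (Or.inr ⟨by norm_num, h11⟩)).2
          ⟨by omega, by omega⟩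
    · intro p hp
      simp only [hP, mem_filter, mem_Icc] at hp
      rw [mem_range]
      have h10 := hp.2.two_le
      have h11 : p - 1 ≠ 0 := by omega
      refine Nat.log_lt_of_lt_pow h11 ?_
      have := hp.1.2
      omega
  have hKreal : (K : ℝ) ≤ 2 * (1 + Real.log y) := by
    have h5 : (2 : ℝ) ^ (Nat.log 2 y) ≤ y := by
      exact_mod_cast Nat.pow_log_le_self 2 (by omega)
    have h6 : (Nat.log 2 y : ℝ) * Real.log 2 ≤ Real.log y := by
      rw [← Real.log_pow]
      exact Real.log_le_log (by positivity) h5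
    have h7 := Real.log_two_gt_d9
    rw [hK]
    push_cast
    have h8 : (0 : ℝ) ≤ (Nat.log 2 y : ℝ) := Nat.cast_nonneg _
    nlinarith
  have hterm1 : ∀ k ∈ range K, ‖∑ p ∈ ((Icc (2 ^ k + 1) (2 ^ (k + 1))).filter Nat.Prime).filter
      (· ≤ y), a p‖ ≤
      |C| * Real.sqrt y * (2 * (1 + Real.log y)) * Real.sqrt (Real.log X) := by
    intro k hk
    have h5 := h3 k q χ t y hq
    rw [← hX] at h5
    refine h5.trans ?_
    have hkK : k + 1 ≤ K := by
      have := mem_range.1 hk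
      omega
    have h6 : ((k : ℝ) + 1) ≤ 2 * (1 + Real.log y) := by
      refine le_trans ?_ hKreal
      exact_mod_cast hkK
    have h7 : (2 : ℝ) ^ k ≤ y := by
      have : 2 ^ k ≤ 2 ^ (Nat.log 2 y) := Nat.pow_le_pow_right (by norm_num) (by omega)
      exact_mod_cast this.trans (Nat.pow_log_le_self 2 (by omega))
    have h8 : Real.sqrt (2 ^ k) ≤ Real.sqrt y := Real.sqrt_le_sqrt h7
    have h9 := Real.sqrt_nonneg ((2 : ℝ) ^ k)
    have h10 := Real.sqrt_nonneg (Real.log X)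
    calc C * Real.sqrt (2 ^ k) * (k + 1) * Real.sqrt (Real.log X)
        ≤ |C| * Real.sqrt (2 ^ k) * (k + 1) * Real.sqrt (Real.log X) := by
          have := le_abs_self C
          gcongr
      _ ≤ |C| * Real.sqrt y * (2 * (1 + Real.log y)) * Real.sqrt (Real.log X) := by
          have := abs_nonneg C
          gcongr
  have hn1 : ‖∑ p ∈ P, a p‖ ≤
      K * (|C| * Real.sqrt y * (2 * (1 + Real.log y)) * Real.sqrt (Real.log X)) := by
    rw [hoff]
    refine (norm_sum_le _ _).trans ((Finset.sum_le_sum hterm1).trans ?_)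
    rw [Finset.sum_const, card_range, nsmul_eq_mul]
  have hsq : Real.sqrt (Real.log X) ≤ 2 * Real.log X := by
    rw [Real.sqrt_le_left (by linarith)]
    nlinarith
  have hlog1 : 1 + Real.log y ≤ (1 + 2 / ε) * (y : ℝ) ^ (ε / 2) := by
    have h5 : Real.log y ≤ (y : ℝ) ^ (ε / 2) / (ε / 2) :=
      Real.log_le_rpow_div (by positivity) (by positivity)
    have h6 : (1 : ℝ) ≤ (y : ℝ) ^ (ε / 2) := Real.one_le_rpow hyR (by positivity)
    have h7 : (y : ℝ) ^ (ε / 2) / (ε / 2) = 2 / ε * (y : ℝ) ^ (ε / 2) := by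
      field_simp
    rw [h7] at h5
    linarith
  have hlog2 : (1 + Real.log y) ^ 2 ≤ (1 + 2 / ε) ^ 2 * (y : ℝ) ^ ε := by
    have h5 := pow_le_pow_left₀ (by positivity) hlog1 2
    rw [mul_pow] at h5
    have h6 : ((y : ℝ) ^ (ε / 2)) ^ 2 = (y : ℝ) ^ ε := by
      rw [← Real.rpow_natCast, ← Real.rpow_mul (by positivity)]
      congr 1
      push_cast
      ring
    rwa [h6] at h5
  calc ‖∑ p ∈ P, a p‖ ≤
        K * (|C| * Real.sqrt y * (2 * (1 + Real.log y)) * Real.sqrt (Real.log X)) := hn1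
    _ ≤ (2 * (1 + Real.log y)) *
        (|C| * Real.sqrt y * (2 * (1 + Real.log y)) * (2 * Real.log X)) := by
        have := abs_nonneg C
        have h5 : 0 ≤ Real.log X := by linarith
        gcongr
    _ = 8 * |C| * (1 + Real.log y) ^ 2 * Real.sqrt y * Real.log X := by ring
    _ ≤ 8 * |C| * ((1 + 2 / ε) ^ 2 * (y : ℝ) ^ ε) * Real.sqrt y * Real.log X := by
        have := abs_nonneg C
        have h5 : 0 ≤ Real.log X := by linarith
        gcongr
    _ = 8 * |C| * (1 + 2 / ε) ^ 2 * (y : ℝ) ^ (1 / 2 + ε) * Real.log X := by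
        rw [Real.rpow_add (by linarith), ← Real.sqrt_eq_rpow]
        ring

end Pool.Agent.Helper25.JB
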